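import Mathlib

/-!
# The Delta-system lemma for uncountable families of finite sets
-/

set_option autoImplicit false

namespace Pool.Agent.Helper33.HM

universe u v

namespace Cond

theorem h68_delta {α : Type u} {ι : Type v} [DecidableEq α] (n : ℕ) :
    ∀ (F : ι → Finset α) (J : Set ι), ¬ J.Countable → (∀ i ∈ J, (F i).card = n) →
      ∃ K : Set ι, ¬ K.Countable ∧ ∃ R : Finset α, ∀ i ∈ K, ∀ j ∈ K, i ≠ j → F i ∩ F j = R := by
  induction n with
  | zero =>
    intro F J hJ hF
    refine ⟨J, hJ, ∅, fun i hi j hj _ => ?_⟩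
    rw [Finset.card_eq_zero.1 (hF i hi), Finset.empty_inter]
  | succ n ih =>
    intro F J hJ hF
    by_cases h : ∃ a, ¬ {i | i ∈ J ∧ a ∈ F i}.Countable
    · obtain ⟨a, ha⟩ := h
      obtain ⟨K, hK, R, hR⟩ := ih (fun i => if a ∈ F i then (F i).erase a else (F i).erase a)
        {i | i ∈ J ∧ a ∈ F i} ha (fun i hi => by
          rw [if_pos hi.2, Finset.card_erase_of_mem hi.2, hF i hi.1]
          rfl)
      by_cases hKa : (K ∩ {i | a ∈ F i}).Countable
      · refine ⟨K \ {i | a ∈ F i}, fun hc => hK ?_, R, ?_⟩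
        · refine (hc.union hKa).mono fun i hi => ?_
          by_cases hai : a ∈ F i
          · exact Or.inr ⟨hi, hai⟩
          · exact Or.inl ⟨hi, hai⟩
        · intro i hi j hj hij
          have h1 := hR i hi.1 j hj.1 hij
          rw [ite_self, ite_self] at h1
          rw [Finset.erase_eq_of_notMem hi.2, Finset.erase_eq_of_notMem hj.2] at h1
          exact h1
      · refine ⟨K ∩ {i | a ∈ F i}, hKa, insert a R, ?_⟩
        intro i hi j hj hij
        have h1 := hR i hi.1 j hj.1 hij
        rw [ite_self, ite_self] at h1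
        rw [← h1]
        ext x
        have hai : a ∈ F i := hi.2
        have haj : a ∈ F j := hj.2
        simp only [Finset.mem_inter, Finset.mem_insert, Finset.mem_erase]
        by_cases hx : x = a
        · subst hx
          simp [hai, haj]
        · simp [hx]
    · push Not at h
      have hz : ∃ m : Set ι, Maximal (fun K : Set ι => K ⊆ J ∧ K.PairwiseDisjoint F) m := by
        refine zorn_subset {K : Set ι | K ⊆ J ∧ K.PairwiseDisjoint F} ?_
        intro c hc hchain
        refine ⟨⋃₀ c, ⟨Set.sUnion_subset fun s hs => (hc hs).1, ?_⟩,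
          fun s hs => Set.subset_sUnion_of_mem hs⟩
        rw [Set.pairwiseDisjoint_sUnion hchain.directedOn]
        exact fun s hs => (hc hs).2
      obtain ⟨K, ⟨hKJ, hKd⟩, hmax⟩ := hz
      refine ⟨K, fun hKc => hJ ?_, ∅, fun i hi j hj hij => ?_⟩
      · have hA : (⋃ k ∈ K, ((F k : Finset α) : Set α)).Countable :=
          hKc.biUnion fun k _ => (F k).countable_toSet
        have hB : (K ∪ ⋃ a ∈ (⋃ k ∈ K, ((F k : Finset α) : Set α)),
            {i | i ∈ J ∧ a ∈ F i}).Countable :=
          hKc.union (hA.biUnion fun a _ => h a)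
        refine hB.mono fun i hi => ?_
        by_cases hd : ∀ k ∈ K, Disjoint (F i) (F k)
        · refine Or.inl ?_
          have h1 : insert i K ⊆ J ∧ (insert i K).PairwiseDisjoint F := by
            refine ⟨Set.insert_subset hi hKJ, ?_⟩
            rw [Set.pairwiseDisjoint_insert]
            exact ⟨hKd, fun k hk _ => hd k hk⟩
          exact hmax h1 (Set.subset_insert i K) (Set.mem_insert i K)
        · push Not at hd
          obtain ⟨k, hk, hik⟩ := hd
          rw [Finset.not_disjoint_iff] at hik
          obtain ⟨a, hai, hak⟩ := hik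
          refine Or.inr ?_
          rw [Set.mem_iUnion₂]
          refine ⟨a, ?_, hi, hai⟩
          rw [Set.mem_iUnion₂]
          exact ⟨k, hk, hak⟩
      · exact Finset.disjoint_iff_inter_eq_empty.1 (hKd hi hj hij)

theorem exists_delta {α : Type u} {ι : Type v} [DecidableEq α] (F : ι → Finset α)
    (h : ¬ (Set.univ : Set ι).Countable) :
    ∃ J : Set ι, ¬ J.Countable ∧ ∃ R : Finset α, ∀ i ∈ J, ∀ j ∈ J, i ≠ j → F i ∩ F j = R := by
  have h1 : ∃ n, ¬ {i | (F i).card = n}.Countable := by
    by_contra hcon
    push Not at hcon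
    refine h ((Set.countable_iUnion hcon).mono fun i _ => ?_)
    rw [Set.mem_iUnion]
    exact ⟨(F i).card, rfl⟩
  obtain ⟨n, hn⟩ := h1
  exact h68_delta n F _ hn fun i hi => hi

end Cond

end Pool.Agent.Helper33.HM
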