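import Pool.Agent.Helper84.HM.Res

/-!
# The subalgebras of the iteration
-/

set_option autoImplicit false
set_option linter.unusedSectionVars false

namespace Pool.Agent.Helper33.HM

universe u

section Sub

variable {I : Type u} [LinearOrder I] [WellFoundedLT I]

/-- Key step: below `p.res i` every condition `q` produces a condition below `p` with the same
restriction to `i` as `q`. -/
theorem h68_glue (i : I) {p q : Cond I} (h : q ≤ p.res i) :
    ∃ g : Cond I, g ≤ p ∧ g.res i = q.res i := by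
  have h1 : q.res i ≤ p.res i := by
    have := Cond.res_mono h i
    rwa [Cond.res_res (le_refl i)] at this
  exact ⟨Cond.glue i (q.res i) p (Cond.res_lt q i),
    Cond.glue_le_right i (q.res i) p (Cond.res_lt q i) h1,
    Cond.res_glue i (q.res i) p (Cond.res_lt q i)⟩

/-- A condition whose restriction to `i` is below that of `q` yields a condition below `q` and below
the given restriction, with the same restriction to `i`. -/
theorem h68_glue' (i : I) {r q : Cond I} (h : r.res i ≤ q.res i) :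
    ∃ g : Cond I, g ≤ q ∧ g ≤ r.res i ∧ g.res i = r.res i :=
  ⟨Cond.glue i (r.res i) q (Cond.res_lt r i),
    Cond.glue_le_right i (r.res i) q (Cond.res_lt r i) h,
    Cond.glue_le_left i (r.res i) q (Cond.res_lt r i),
    Cond.res_glue i (r.res i) q (Cond.res_lt r i)⟩

theorem gen_mem_sub {A : Set (Cond I)} {i : I} (h : ∀ a ∈ A, a.lt i) : RO.gen A ∈ SubI i := by
  intro p
  constructor
  · intro hp
    rw [RO.mem_gen] at hp ⊢
    intro q hq
    obtain ⟨g, hg, hgr⟩ := h68_glue i hq
    obtain ⟨r, hr, a, ha, hra⟩ := hp g hg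
    have h1 : r.res i ≤ q.res i := by
      rw [← hgr]
      exact Cond.res_mono hr i
    obtain ⟨g', hg', hg'', -⟩ := h68_glue' i h1
    have h2 : r.res i ≤ a := by
      have := Cond.res_mono hra i
      rwa [Cond.res_of_lt (h a ha)] at this
    exact ⟨g', hg', a, ha, hg''.trans h2⟩
  · intro hp
    exact RO.mem_lower (Cond.le_res p i) hp

theorem subI_isSub (i : I) : IsSub (SubI i) := by
  constructor
  · intro U hU p
    constructor
    · intro hp
      rw [RO.mem_compl] at hp ⊢
      intro q hq hqU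
      obtain ⟨g, hg, hgr⟩ := h68_glue i hq
      exact hp g hg ((hU g).2 (hgr ▸ (hU q).1 hqU))
    · intro hp
      exact RO.mem_lower (Cond.le_res p i) hp
  · intro t ht p
    constructor
    · intro hp
      rw [RO.mem_sSup] at hp ⊢
      intro q hq
      obtain ⟨g, hg, hgr⟩ := h68_glue i hq
      obtain ⟨r, hr, U, hU, hrU⟩ := hp g hg
      have h1 : r.res i ≤ q.res i := by
        rw [← hgr]
        exact Cond.res_mono hr i
      obtain ⟨g', hg', -, hg''⟩ := h68_glue' i h1
      refine ⟨g', hg', U, hU, (ht hU g').2 ?_⟩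
      rw [hg'']
      exact (ht hU r).1 hrU
    · intro hp
      exact RO.mem_lower (Cond.le_res p i) hp

theorem subI_mono {i j : I} (h : i ≤ j) : SubI i ⊆ SubI j := by
  intro U hU p
  rw [hU p, hU (p.res j), Cond.res_res h]

/-- The element generated by one condition. -/
theorem h68_gen_single {b : RO (Cond I)} {p : Cond I} (hp : p ∈ b) :
    RO.gen {p} ≠ ⊥ ∧ RO.gen {p} ≤ b := by
  constructor
  · rw [RO.ne_bot_iff]
    exact ⟨p, fun q hq => ⟨q, le_rfl, p, rfl, hq⟩⟩
  · intro q hq
    refine RO.mem_reg fun q' hq' => ?_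
    obtain ⟨r, hr, a, ha, hra⟩ := hq q' hq'
    rw [Set.mem_singleton_iff] at ha
    subst ha
    exact ⟨r, hr, RO.mem_lower hra hp⟩

theorem subI_limit {i : I} (hne : ∃ j, j < i) (h : ∀ j < i, ∃ k, j < k ∧ k < i)
    {b : RO (Cond I)} (hb : b ∈ SubI i) (hb0 : b ≠ ⊥) :
    ∃ j < i, ∃ c ∈ SubI j, c ≠ ⊥ ∧ c ≤ b := by
  obtain ⟨p, hp⟩ := RO.ne_bot_iff.1 hb0
  have hp' : p.res i ∈ b := (hb p).1 hp
  have hj : ∃ j < i, (p.res i).lt j := by
    have hlt : (p.res i).lt i := Cond.res_lt p i
    generalize p.res i = q at hlt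
    obtain ⟨q, hq⟩ := q
    cases q with
    | one =>
      obtain ⟨j, hj⟩ := hne
      exact ⟨j, hj, trivial⟩
    | cons q k s m f v =>
      obtain ⟨j, hj1, hj2⟩ := h k hlt
      exact ⟨j, hj2, hj1⟩
  obtain ⟨j, hji, hj⟩ := hj
  refine ⟨j, hji, RO.gen {p.res i}, gen_mem_sub ?_, h68_gen_single hp'⟩
  intro a ha
  rw [Set.mem_singleton_iff] at ha
  subst ha
  exact hj

theorem subI_top [NoMaxOrder I] [Nonempty I] {b : RO (Cond I)} (hb0 : b ≠ ⊥) :
    ∃ j, ∃ c ∈ SubI j, c ≠ ⊥ ∧ c ≤ b := by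
  obtain ⟨p, hp⟩ := RO.ne_bot_iff.1 hb0
  have hj : ∃ j, p.lt j := by
    obtain ⟨q, hq⟩ := p
    cases q with
    | one => exact ⟨Classical.arbitrary I, trivial⟩
    | cons q k s m f v =>
      obtain ⟨j, hj⟩ := exists_gt k
      exact ⟨j, hj⟩
  obtain ⟨j, hj⟩ := hj
  refine ⟨j, RO.gen {p}, gen_mem_sub ?_, h68_gen_single hp⟩
  intro a ha
  rw [Set.mem_singleton_iff] at ha
  subst ha
  exact hj

end Sub

end Pool.Agent.Helper33.HM
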