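import Pool.Agent.Helper68.HM.SubAlg
import Pool.Agent.Helper55.HM.Stems
import Pool.Agent.Helper33.HM.Iter

/-!
# The Hechler reals are names of functions
-/

set_option autoImplicit false
set_option linter.unusedSectionVars false

namespace Pool.Agent.Helper33.HM

theorem h68_gen_mono {P : Type*} [Preorder P] {A A' : Set P}
    (h : ∀ a ∈ A, ∃ a' ∈ A', a ≤ a') : RO.gen A ≤ RO.gen A' := by
  intro p hp q hq
  obtain ⟨r, hr, a, ha, hra⟩ := hp q hq
  obtain ⟨a', ha', haa⟩ := h a ha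
  exact ⟨r, hr, a', ha', hra.trans haa⟩

theorem hech_fn (β : Ordinal.{0}) : IsFn (SubI (Order.succ β)) (hech β) := by
  constructor
  · intro n k
    have h1 : hech β n k = RO.gen {p : Cond Ordinal.{0} | p.lt (Order.succ β) ∧
        ∃ p' s m f v, Cond.Ent p β p' s m f v ∧ ∃ h : n < s.length, s[n] ≤ k} := by
      apply le_antisymm
      · refine h68_gen_mono ?_
        rintro a ⟨p', s, m, f, v, he, hs⟩
        exact ⟨a.res (Order.succ β), ⟨Cond.res_lt a _, p', s, m, f, v,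
          Cond.ent_res.2 ⟨Order.lt_succ β, he⟩, hs⟩, Cond.le_res a _⟩
      · refine h68_gen_mono ?_
        rintro a ⟨-, ha⟩
        exact ⟨a, ha, le_rfl⟩
    rw [h1]
    exact gen_mem_sub fun a ha => ha.1
  · intro n k
    refine h68_gen_mono ?_
    rintro a ⟨p', s, m, f, v, he, hs, hsk⟩
    exact ⟨a, ⟨p', s, m, f, v, he, hs, hsk.trans (Nat.le_succ k)⟩, le_rfl⟩
  · intro n
    rw [eq_top_iff]
    intro p _
    rw [RO.mem_iSup]
    intro q _
    obtain ⟨q1, hq1, q', s, m, f, v, he, hs⟩ := Cond.exists_long_stem q β n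
    refine ⟨q1, hq1, s[n], fun r hr => ⟨r, le_rfl, q1, ⟨q', s, m, f, v, he, hs, le_rfl⟩, hr⟩⟩

end Pool.Agent.Helper33.HM
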