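import Pool.Agent.Helper33.HM.Iter

/-!
# Smallness of the subalgebras of the iteration along the ordinals
-/

set_option autoImplicit false
set_option linter.unusedSectionVars false

namespace Pool.Agent.Helper33.HM

universe u v

/-- The map of raw conditions induced by a map of the index types. -/
def h68_map {J : Type u} {I : Type v} (g : J → I) : Raw J → Raw I
  | .one => .one
  | .cons p i s m f w => .cons (h68_map g p) (g i) s m (fun l n k => h68_map g (f l n k)) w

theorem h68_range {J : Type u} {I : Type v} [LinearOrder I] (g : J → I) (i : I)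
    (hg : ∀ j < i, ∃ a, g a = j) (p : Raw I) : p.WF → p.lt i → ∃ q, h68_map g q = p := by
  induction p with
  | one => exact fun _ _ => ⟨.one, rfl⟩
  | cons p j s m f w ih ihf =>
    intro hp hpi
    obtain ⟨hp1, hp2, hp3⟩ := hp
    have hji : j < i := hpi
    obtain ⟨a, ha⟩ := hg j hji
    obtain ⟨q, hq⟩ := ih hp1 (Raw.lt_mono hji.le hp2)
    have h : ∀ l n k, ∃ r, h68_map g r = f l n k := fun l n k =>
      ihf l n k (hp3 l n k).1 (Raw.lt_mono hji.le (hp3 l n k).2)
    choose r hr using h
    refine ⟨.cons q a s m r w, ?_⟩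
    rw [h68_map, hq, ha]
    congr 1
    funext l n k
    exact hr l n k

theorem h68_small_cond (β : Ordinal.{0}) : Small.{0} {p : Cond Ordinal.{0} // p.lt β} := by
  have : Small.{0} (Set.Iio β) := inferInstance
  let J := Shrink.{0} (Set.Iio β)
  let g : J → Ordinal.{0} := fun j => ((equivShrink (Set.Iio β)).symm j).1
  have hg : ∀ j < β, ∃ a, g a = j := by
    intro j hj
    refine ⟨equivShrink (Set.Iio β) ⟨j, hj⟩, ?_⟩
    simp [g]
  have h1 : Small.{0} (Set.range (h68_map g)) := small_range _
  refine small_of_injective (α := {p : Cond Ordinal.{0} // p.lt β})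
    (β := Set.range (h68_map g))
    (f := fun p => ⟨p.1.1, h68_range g β hg p.1.1 p.1.2 p.2⟩) ?_
  intro p q hpq
  have := congrArg Subtype.val hpq
  exact Subtype.ext (Subtype.ext this)

theorem small_sub (β : Ordinal.{0}) : Small.{0} (SubI β) := by
  have h1 := h68_small_cond β
  have h2 : Small.{0} (Set {p : Cond Ordinal.{0} // p.lt β}) := inferInstance
  refine small_of_injective (α := SubI β) (β := Set {p : Cond Ordinal.{0} // p.lt β})
    (f := fun U => {p | p.1 ∈ U.1}) ?_
  intro U V hUV
  refine Subtype.ext (RO.ext' fun p => ?_)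
  rw [U.2 p, V.2 p]
  have := Set.ext_iff.1 hUV ⟨p.res β, (Raw.res_facts p.1 p.2 β).2.1⟩
  exact this

end Pool.Agent.Helper33.HM
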